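import Pool.Agent.P.MP_0b4c38_co.BVAll

/-! An irreducible simplicial arrangement of rank three with a vertex of multiplicity at least
`C n^(1 - delta)` is linearly isomorphic to a member of the regular polygon families. -/

set_option autoImplicit false

namespace Pool.Agent.Results.MP_0b4c38_co.BigVertex

open Pool.Agent.SimpArr

theorem result :
    ∃ K C : ℕ, ∀ A : Finset (Submodule ℝ (Fin 3 → ℝ)), IsArrangement A → IsSimplicial A →
      IsIrreducible A → ∀ (v : Fin 3 → ℝ) (T : Finset (Submodule ℝ (Fin 3 → ℝ))), v ≠ 0 → T ⊆ A →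
      (∀ H ∈ T, v ∈ H) → C * A.card ^ K ≤ T.card ^ (K + 1) →
      ∃ (B : Finset (Submodule ℝ (Fin 3 → ℝ))) (g : (Fin 3 → ℝ) ≃ₗ[ℝ] (Fin 3 → ℝ)), IsRegular B ∧
        ∀ H, H ∈ A ↔ ∃ H' ∈ B, ∀ w, w ∈ H ↔ g w ∈ H' :=
  BV.bigVertex_all

end Pool.Agent.Results.MP_0b4c38_co.BigVertex
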