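import Pool.Agent.P.MP_0b4c38_co.Main
import Pool.Agent.P.MP_0b4c38_co.Final

/-! Irreducible simplicial arrangements of large rank are of type `A_r` or `A_r^k`. -/

set_option autoImplicit false

namespace Pool.Agent.Results.MP_0b4c38_co.LargeRank

open Pool.Agent.SimpArr

theorem result (r : ℕ) (hr : 3000 ≤ r) (A : Finset (Submodule ℝ (Fin r → ℝ)))
    (hA : IsArrangement A) (hs : IsSimplicial A) (hi : IsIrreducible A) :
    IsTypeA A ∨ ∃ k ≤ r, IsTypeDB k A :=
  final_of_main (by norm_num) (fun _ _ _ _ _ _ hR h hc hS => classify_large hR h hc hS) hr A hA hs hi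

end Pool.Agent.Results.MP_0b4c38_co.LargeRank
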