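import Pool.Agent.P.MP_0b4c38_co.MGlue

/-! Finitely many sporadic simplicial arrangements, over all ranks together, have all their
sporadic minors of rank three of bounded size. -/

set_option autoImplicit false

namespace Pool.Agent.Results.MP_0b4c38_co.Minors

open Pool.Agent.SimpArr

theorem result (N : ℕ) :
    ∃ L : Set (Σ n : ℕ, Finset (Submodule ℝ (Fin n → ℝ))), L.Finite ∧
      ∀ n, 3 ≤ n → ∀ A : Finset (Submodule ℝ (Fin n → ℝ)), IsSporadic A →
        (∀ B, IsMinor A B → IsSporadic B → B.card ≤ N) → ∃ C ∈ L, CombEq A C.2 :=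
  minors N

end Pool.Agent.Results.MP_0b4c38_co.Minors
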